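import Pool.Agent.H438R3.BSD.Core2

/-! Quotients of two entire functions which are exponentials of Dirichlet series with nonnegative
coefficients, up to a holomorphic factor (Landau). -/

set_option autoImplicit false

open Complex Filter Topology Set

namespace Pool.Agent.H234R4.BSD

open Pool.Agent.H438R3.BSD hiding isOpen_re_gt

theorem local_contra (G : ℕ → ℝ) (hG : ∀ n, 0 ≤ G n) (W : ℂ → ℂ)
    (hW : DifferentiableOn ℂ W {s | 1 < s.re}) (a0 : ℝ) (h1a : 1 < a0)
    (ha0 : LSeries.abscissaOfAbsConv (fun n => (G n : ℂ)) = (a0 : EReal))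
    (q : ℂ → ℂ) (hq : AnalyticAt ℂ q a0) (hq0 : q a0 ≠ 0)
    (hrel : ∀ᶠ s in 𝓝 (a0 : ℂ), a0 < s.re →
      q s = exp (W s + (s - 1) ^ 2 * LSeries (fun n => (G n : ℂ)) s)) : False := by
  set a : ℕ → ℂ := fun n => (G n : ℂ) with ha
  have hqc : ContinuousAt (fun s => q s / q a0) (a0 : ℂ) := hq.continuousAt.div_const _
  have hev1 : ∀ᶠ s in 𝓝 (a0 : ℂ), ‖q s / q a0 - 1‖ < 1 := by
    have := Metric.tendsto_nhds.1 hqc 1 one_pos
    filter_upwards [this] with s hs
    rw [div_self hq0, dist_eq_norm] at hs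
    exact hs
  have hev2 : ∀ᶠ s in 𝓝 (a0 : ℂ), 1 < s.re := (isOpen_re_gt 1).mem_nhds (by simpa using h1a)
  obtain ⟨r, hr0, hball⟩ := Metric.eventually_nhds_iff_ball.1
    ((hev1.and hev2).and (hrel.and hq.eventually_analyticAt))
  have hslit : ∀ s ∈ Metric.ball (a0 : ℂ) r, q s / q a0 ∈ slitPlane := by
    intro s hs
    have h3 := Complex.mem_slitPlane_of_norm_lt_one (hball s hs).1.1
    simpa using h3
  have hre : ∀ s ∈ Metric.ball (a0 : ℂ) r, 1 < s.re := fun s hs => (hball s hs).1.2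
  have hqd : ∀ s ∈ Metric.ball (a0 : ℂ) r, DifferentiableAt ℂ q s :=
    fun s hs => (hball s hs).2.2.differentiableAt
  have hR : ∀ s ∈ Metric.ball (a0 : ℂ) r, a0 < s.re →
      q s = exp (W s + (s - 1) ^ 2 * LSeries a s) := fun s hs => (hball s hs).2.1
  set Lg : ℂ → ℂ := fun s => Complex.log (q s / q a0) + Complex.log (q a0) with hLg
  have hLgd : DifferentiableOn ℂ Lg (Metric.ball (a0 : ℂ) r) := by
    intro s hs
    have h2 : DifferentiableAt ℂ (fun s => q s / q a0) s := (hqd s hs).div_const _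
    exact ((h2.clog (hslit s hs)).add_const _).differentiableWithinAt
  have hexpLg : ∀ s ∈ Metric.ball (a0 : ℂ) r, exp (Lg s) = q s := by
    intro s hs
    rw [hLg]
    simp only
    have h2 := Complex.slitPlane_ne_zero (hslit s hs)
    rw [Complex.exp_add, Complex.exp_log h2, Complex.exp_log hq0, div_mul_cancel₀ _ hq0]
  set c : ℝ := a0 + r / 4 with hc
  have hsub : Metric.ball (c : ℂ) (r / 2) ⊆ Metric.ball (a0 : ℂ) r := by
    apply Metric.ball_subset_ball'
    rw [dist_eq_norm]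
    have : (c : ℂ) - a0 = ((r / 4 : ℝ) : ℂ) := by rw [hc]; push_cast; ring
    rw [this, Complex.norm_real, Real.norm_eq_abs, abs_of_pos (by positivity)]
    linarith
  have hLc : ContinuousAt (LSeries a) (c : ℂ) :=
    (LSeries_analyticOnNhd a (c : ℂ) (by
      show LSeries.abscissaOfAbsConv a < (((c : ℂ)).re : EReal)
      rw [ha0]
      simp only [ofReal_re]
      exact_mod_cast (by rw [hc]; linarith : a0 < c))).continuousAt
  have hcmem : (c : ℂ) ∈ Metric.ball (a0 : ℂ) r := hsub (Metric.mem_ball_self (by positivity))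
  set φ : ℂ → ℂ := fun s => Lg s - W s - (s - 1) ^ 2 * LSeries a s with hφ
  have hφc : ContinuousAt φ (c : ℂ) := by
    apply ContinuousAt.sub
    · apply ContinuousAt.sub
      · exact (hLgd.differentiableAt (Metric.isOpen_ball.mem_nhds hcmem)).continuousAt
      · exact (hW.differentiableAt ((isOpen_re_gt 1).mem_nhds (hre _ hcmem))).continuousAt
    · apply ContinuousAt.mul _ hLc
      fun_prop
  have hev : ∀ᶠ s in 𝓝 (c : ℂ), exp (φ s) = 1 := by
    have h2 : Metric.ball (a0 : ℂ) r ∩ {s : ℂ | a0 < s.re} ∈ 𝓝 (c : ℂ) := by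
      apply inter_mem (Metric.isOpen_ball.mem_nhds hcmem) ((isOpen_re_gt a0).mem_nhds ?_)
      show a0 < ((c : ℂ)).re
      simp only [ofReal_re]
      rw [hc]; linarith
    filter_upwards [h2] with s hs
    have h3 := hexpLg s hs.1
    have h4 := hR s hs.1 hs.2
    rw [h4] at h3
    have h5 : φ s = Lg s - (W s + (s - 1) ^ 2 * LSeries a s) := by rw [hφ]; ring
    rw [h5, Complex.exp_sub, h3, div_self (Complex.exp_ne_zero _)]
  have hconst : ∀ᶠ s in 𝓝 (c : ℂ), φ s = φ c := by
    have h2 : ∀ᶠ s in 𝓝 (c : ℂ), ‖φ s - φ c‖ < 2 * Real.pi := by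
      have := (Metric.tendsto_nhds.1 hφc) (2 * Real.pi) (by positivity)
      filter_upwards [this] with s hs
      rwa [dist_eq_norm] at hs
    filter_upwards [hev, h2] with s hs1 hs2
    have h3 : exp (φ s - φ c) = 1 := by
      rw [Complex.exp_sub, hs1, hev.self_of_nhds, div_one]
    rw [Complex.exp_eq_one_iff] at h3
    obtain ⟨n, hn⟩ := h3
    rw [hn] at hs2
    have h4 : ‖(n : ℂ) * (2 * Real.pi * I)‖ = |(n : ℝ)| * (2 * Real.pi) := by
      rw [norm_mul, norm_mul, norm_mul, Complex.norm_I, mul_one, Complex.norm_real,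
        Real.norm_eq_abs, abs_of_pos Real.pi_pos]
      simp
    rw [h4] at hs2
    have h5 : |(n : ℝ)| < 1 := by
      by_contra hcon
      push Not at hcon
      have := mul_le_mul_of_nonneg_right hcon (by positivity : 0 ≤ 2 * Real.pi)
      linarith
    have h6 : n = 0 := by
      have : |n| < 1 := by exact_mod_cast h5
      rwa [Int.abs_lt_one_iff] at this
    rw [h6] at hn
    simp only [Int.cast_zero, zero_mul] at hn
    exact sub_eq_zero.1 hn
  set H : ℂ → ℂ := fun s => (Lg s - W s - φ c) / (s - 1) ^ 2 with hH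
  have hne1 : ∀ s ∈ Metric.ball (a0 : ℂ) r, s - 1 ≠ 0 := by
    intro s hs h0
    have h2 := hre s hs
    have h3 : s = 1 := sub_eq_zero.1 h0
    rw [h3] at h2
    simp at h2
  have hHd : DifferentiableOn ℂ H (Metric.ball (c : ℂ) (r / 2)) := by
    apply DifferentiableOn.div _ (by fun_prop) (fun s hs => pow_ne_zero 2 (hne1 s (hsub hs)))
    apply DifferentiableOn.sub_const
    exact (hLgd.mono hsub).sub (hW.mono (fun s hs => hre s (hsub hs)))
  have hHe : ∀ᶠ s in 𝓝 (c : ℂ), H s = LSeries a s := by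
    filter_upwards [hconst, Metric.isOpen_ball.mem_nhds hcmem] with s hs1 hs2
    rw [hH]
    simp only
    rw [← hs1, hφ]
    simp only
    rw [div_eq_iff (pow_ne_zero 2 (hne1 s hs2))]
    ring
  have hcontr := landau_disc G hG H c (r / 2) (by positivity) hHd (by
    show LSeries.abscissaOfAbsConv a < (c : EReal)
    rw [ha0]
    exact_mod_cast (by rw [hc]; linarith : a0 < c)) hHe (a0 - r / 8) (by rw [hc]; linarith)
    (by rw [hc]; linarith)
  have h7 := hcontr.abscissaOfAbsConv_le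
  rw [ha0] at h7
  simp only [ofReal_re] at h7
  have h8 : a0 ≤ a0 - r / 8 := by exact_mod_cast h7
  linarith

/-- spreading a relation between two entire functions -/
theorem spreadR (a : ℕ → ℂ) (F₁ F₂ W : ℂ → ℂ) (hF₁ : Differentiable ℂ F₁) (hF₂ : Differentiable ℂ F₂)
    (hW : DifferentiableOn ℂ W {s | 1 < s.re})
    (hrel : ∀ s : ℂ, 3 / 2 < s.re → F₁ s = F₂ s * exp (W s + (s - 1) ^ 2 * LSeries a s))
    (t : ℝ) (ht : 1 ≤ t) (ht2 : t ≤ 3 / 2) (habs : LSeries.abscissaOfAbsConv a ≤ (t : EReal)) :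
    ∀ s : ℂ, t < s.re → F₁ s = F₂ s * exp (W s + (s - 1) ^ 2 * LSeries a s) := by
  have hL : DifferentiableOn ℂ (LSeries a) {s : ℂ | t < s.re} := by
    intro s hs
    refine (LSeries_analyticOnNhd a s ?_).differentiableAt.differentiableWithinAt
    exact lt_of_le_of_lt habs (by exact_mod_cast hs)
  have hW' : DifferentiableOn ℂ W {s : ℂ | t < s.re} :=
    hW.mono (fun s (hs : t < s.re) => lt_of_le_of_lt ht hs)
  have hR : DifferentiableOn ℂ (fun s => F₂ s * exp (W s + (s - 1) ^ 2 * LSeries a s))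
      {s : ℂ | t < s.re} := by
    apply DifferentiableOn.mul hF₂.differentiableOn
    apply DifferentiableOn.cexp
    apply hW'.add
    apply DifferentiableOn.mul _ hL
    fun_prop
  have h1 := (hF₁.differentiableOn (s := {s : ℂ | t < s.re})).analyticOnNhd (isOpen_re_gt t)
  have h2 := hR.analyticOnNhd (isOpen_re_gt t)
  have h3 := h1.eqOn_of_preconnected_of_eventuallyEq h2 (preconn_re_gt t)
    (z₀ := (2 : ℂ)) (by show t < (2 : ℂ).re; simp only [re_ofNat]; linarith) (by
      have : {s : ℂ | 3 / 2 < s.re} ∈ 𝓝 (2 : ℂ) :=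
        (isOpen_re_gt (3 / 2)).mem_nhds (by show (3:ℝ) / 2 < (2 : ℂ).re; simp only [re_ofNat]; norm_num)
      filter_upwards [this] with s hs
      exact hrel s hs)
  exact fun s hs => h3 hs

theorem order_ne_top {F : ℂ → ℂ} (hF : Differentiable ℂ F) (h2 : F 2 ≠ 0) (z : ℂ) :
    ∃ n : ℕ, analyticOrderAt F z = n := by
  have h1 : analyticOrderAt F z ≠ ⊤ := by
    intro htop
    rw [analyticOrderAt_eq_top] at htop
    have h3 := (hF.differentiableOn (s := Set.univ)).analyticOnNhd isOpen_univ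
    have h4 := h3.eqOn_zero_of_preconnected_of_eventuallyEq_zero isPreconnected_univ
      (Set.mem_univ z) htop
    exact h2 (h4 (Set.mem_univ 2))
  exact ⟨(analyticOrderAt F z).toNat, (ENat.coe_toNat h1).symm⟩

theorem coreR (G : ℕ → ℝ) (hG : ∀ n, 0 ≤ G n) (F₁ F₂ W : ℂ → ℂ)
    (hF₁ : Differentiable ℂ F₁) (hF₂ : Differentiable ℂ F₂) (hne₁ : F₁ 2 ≠ 0) (hne₂ : F₂ 2 ≠ 0)
    (hW : DifferentiableOn ℂ W {s | 1 < s.re})
    (hsum : ∀ s : ℂ, 3 / 2 < s.re → LSeriesSummable (fun n => (G n : ℂ)) s)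
    (hrel : ∀ s : ℂ, 3 / 2 < s.re →
      F₁ s = F₂ s * exp (W s + (s - 1) ^ 2 * LSeries (fun n => (G n : ℂ)) s))
    (hreal : ∀ σ : ℝ, 1 < σ → analyticOrderAt F₂ σ ≤ analyticOrderAt F₁ σ) :
    (∀ s : ℂ, 1 < s.re → F₁ s = F₂ s * exp (W s + (s - 1) ^ 2 * LSeries (fun n => (G n : ℂ)) s)) ∧
    ∀ s : ℂ, 1 < s.re → analyticOrderAt F₁ s = analyticOrderAt F₂ s := by
  set a : ℕ → ℂ := fun n => (G n : ℂ) with ha
  have hup : LSeries.abscissaOfAbsConv a ≤ ((3 / 2 : ℝ) : EReal) :=
    LSeries.abscissaOfAbsConv_le_of_forall_lt_LSeriesSummable fun y hy =>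
      hsum y (by simpa using hy)
  have hone : LSeries.abscissaOfAbsConv a ≤ ((1 : ℝ) : EReal) := by
    by_contra hcon
    push Not at hcon
    obtain ⟨a0, ha0⟩ : ∃ a0 : ℝ, LSeries.abscissaOfAbsConv a = (a0 : EReal) := by
      induction h : LSeries.abscissaOfAbsConv a using EReal.rec with
      | bot => rw [h] at hcon; exact absurd hcon (by simp)
      | coe x => exact ⟨x, rfl⟩
      | top => rw [h] at hup; exact absurd hup (by simp)
    rw [ha0] at hcon hup
    have h1a : 1 < a0 := by exact_mod_cast hcon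
    have ha32 : a0 ≤ 3 / 2 := by exact_mod_cast hup
    have hR := spreadR a F₁ F₂ W hF₁ hF₂ hW hrel a0 h1a.le ha32 ha0.le
    have hWc : ContinuousAt W (a0 : ℂ) :=
      (hW.differentiableAt ((isOpen_re_gt 1).mem_nhds (by simpa using h1a))).continuousAt
    obtain ⟨n1, hn1⟩ := order_ne_top hF₁ hne₁ a0
    obtain ⟨n2, hn2⟩ := order_ne_top hF₂ hne₂ a0
    have hle := hreal a0 h1a
    rw [hn1, hn2] at hle
    have hle' : n2 ≤ n1 := by exact_mod_cast hle
    obtain ⟨u1, hu1, hu10, hu1e⟩ := ((hF₁.analyticAt (a0 : ℂ)).analyticOrderAt_eq_natCast).1 hn1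
    obtain ⟨u2, hu2, hu20, hu2e⟩ := ((hF₂.analyticAt (a0 : ℂ)).analyticOrderAt_eq_natCast).1 hn2
    simp only [smul_eq_mul] at hu1e hu2e
    -- the orders agree
    have hnn : n1 = n2 := by
      by_contra hnne
      have hlt : n2 < n1 := lt_of_le_of_ne hle' (Ne.symm hnne)
      obtain ⟨k, hk⟩ : ∃ k, n1 = n2 + (k + 1) := ⟨n1 - n2 - 1, by omega⟩
      have hcast : Tendsto (fun σ : ℝ => (σ : ℂ)) (𝓝[>] a0) (𝓝 (a0 : ℂ)) :=
        (Complex.continuous_ofReal.tendsto a0).mono_left nhdsWithin_le_nhds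
      have t1 : Tendsto (fun σ : ℝ => (σ - a0) ^ (k + 1) * ‖u1 σ‖) (𝓝[>] a0) (𝓝 0) := by
        have h1 : Tendsto (fun σ : ℝ => (σ - a0) ^ (k + 1)) (𝓝[>] a0) (𝓝 0) := by
          have : ContinuousAt (fun σ : ℝ => (σ - a0) ^ (k + 1)) a0 := by fun_prop
          have h2 := this.tendsto.mono_left (nhdsWithin_le_nhds (s := Ioi a0))
          simpa using h2
        have h3 : Tendsto (fun σ : ℝ => ‖u1 σ‖) (𝓝[>] a0) (𝓝 ‖u1 a0‖) :=
          (hu1.continuousAt.tendsto.comp hcast).norm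
        simpa using h1.mul h3
      have t2 : Tendsto (fun σ : ℝ => Real.exp (W σ).re * ‖u2 σ‖) (𝓝[>] a0)
          (𝓝 (Real.exp (W a0).re * ‖u2 a0‖)) := by
        apply Tendsto.mul
        · exact (Real.continuous_exp.tendsto _).comp
            ((Complex.continuous_re.tendsto _).comp (hWc.tendsto.comp hcast))
        · exact (hu2.continuousAt.tendsto.comp hcast).norm
      have h3 : Real.exp (W a0).re * ‖u2 a0‖ ≤ 0 := by
        refine le_of_tendsto_of_tendsto t2 t1 ?_
        filter_upwards [self_mem_nhdsWithin, hcast.eventually hu1e, hcast.eventually hu2e]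
          with σ hσ e1 e2
        have hσ' : a0 < σ := hσ
        have hpos : 0 < σ - a0 := by linarith
        have h4 := hR σ (by simpa using hσ')
        rw [e1, e2] at h4
        have h5 := congrArg norm h4
        rw [norm_mul, norm_mul, norm_mul, norm_pow, norm_pow, Complex.norm_exp] at h5
        have h6 : ‖(σ : ℂ) - a0‖ = σ - a0 := by
          rw [← Complex.ofReal_sub, Complex.norm_real, Real.norm_eq_abs, abs_of_pos hpos]
        rw [h6, hk, pow_add] at h5
        have h7 : Real.exp (W σ).re ≤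
            Real.exp (W σ + ((σ : ℂ) - 1) ^ 2 * LSeries a σ).re := by
          apply Real.exp_le_exp.2
          rw [add_re]
          have h8 := re_LSeries_nonneg G hG σ
          have h9 : (((σ : ℂ) - 1) ^ 2 * LSeries a σ).re = (σ - 1) ^ 2 * (LSeries a σ).re := by
            have : ((σ : ℂ) - 1) ^ 2 = (((σ - 1) ^ 2 : ℝ) : ℂ) := by push_cast; ring
            rw [this, Complex.re_ofReal_mul]
          rw [h9]
          have h10 : 0 ≤ (σ - 1) ^ 2 * (LSeries a σ).re := mul_nonneg (by positivity) h8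
          linarith
        have hp2 : 0 < (σ - a0) ^ n2 := by positivity
        have h11 : (σ - a0) ^ n2 * ((σ - a0) ^ (k + 1) * ‖u1 σ‖) =
            (σ - a0) ^ n2 * (‖u2 σ‖ * Real.exp (W σ + ((σ : ℂ) - 1) ^ 2 * LSeries a σ).re) := by
          rw [← mul_assoc, h5, mul_assoc]
        have h12 := mul_left_cancel₀ hp2.ne' h11
        show Real.exp (W σ).re * ‖u2 σ‖ ≤ (σ - a0) ^ (k + 1) * ‖u1 σ‖
        rw [h12, mul_comm]
        exact mul_le_mul_of_nonneg_left h7 (norm_nonneg _)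
      have h4 : 0 < Real.exp (W a0).re * ‖u2 a0‖ :=
        mul_pos (Real.exp_pos _) (norm_pos_iff.2 hu20)
      linarith
    -- the quotient
    refine local_contra G hG W hW a0 h1a ha0 (fun s => u1 s / u2 s) (hu1.div hu2 hu20)
      (div_ne_zero hu10 hu20) ?_
    have hu2ne : ∀ᶠ s in 𝓝 (a0 : ℂ), u2 s ≠ 0 := hu2.continuousAt.eventually_ne hu20
    filter_upwards [hu1e, hu2e, hu2ne] with s e1 e2 e3 hs
    have h4 := hR s hs
    rw [e1, e2, hnn, mul_assoc] at h4
    have hsne : (s - a0) ^ n2 ≠ 0 := by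
      apply pow_ne_zero
      intro h0
      have : s = a0 := sub_eq_zero.1 h0
      rw [this] at hs
      simp at hs
    have h5 := mul_left_cancel₀ hsne h4
    show u1 s / u2 s = _
    rw [div_eq_iff e3, h5, mul_comm]
  have hall := spreadR a F₁ F₂ W hF₁ hF₂ hW hrel 1 le_rfl (by norm_num) hone
  refine ⟨hall, fun s hs => ?_⟩
  have hLs : AnalyticAt ℂ (LSeries a) s :=
    LSeries_analyticOnNhd a s (lt_of_le_of_lt hone (by exact_mod_cast hs))
  have hWs : AnalyticAt ℂ W s := hW.analyticAt ((isOpen_re_gt 1).mem_nhds hs)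
  have hE : AnalyticAt ℂ (fun s => exp (W s + (s - 1) ^ 2 * LSeries a s)) s := by
    apply AnalyticAt.cexp
    apply hWs.add
    apply AnalyticAt.mul _ hLs
    fun_prop
  have hcongr : F₁ =ᶠ[𝓝 s] F₂ * fun s => exp (W s + (s - 1) ^ 2 * LSeries a s) := by
    filter_upwards [(isOpen_re_gt 1).mem_nhds hs] with z hz
    exact hall z hz
  rw [analyticOrderAt_congr hcongr, analyticOrderAt_mul (hF₂.analyticAt s) hE,
    hE.analyticOrderAt_eq_zero.2 (Complex.exp_ne_zero _), add_zero]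

end Pool.Agent.H234R4.BSD
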